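import Mathlib
import Pool.Agent.W748.UK.Unif

/-!
`K_{σδ}`-spaces and uniformly continuous maps between spaces `C_p(X)`.
-/

set_option autoImplicit false

namespace Pool.Agent.Results.MP_bdd006_gt.UniformCase

/-- `X` is a `K_{σδ}`-space: it embeds in a compact Hausdorff space as a countable intersection of
`σ`-compact sets. -/
def IsKSigmaDelta (X : Type) [TopologicalSpace X] : Prop :=
  ∃ (K : Type) (_ : TopologicalSpace K), CompactSpace K ∧ T2Space K ∧
    ∃ e : X → K, Topology.IsEmbedding e ∧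
      ∃ A : ℕ → ℕ → Set K, (∀ n m, IsCompact (A n m)) ∧ Set.range e = ⋂ n, ⋃ m, A n m

/-- The topology of pointwise convergence on the set `C(X, ℝ)` of continuous functions. -/
@[reducible] def pointwiseTopology (X : Type) [TopologicalSpace X] : TopologicalSpace C(X, ℝ) :=
  TopologicalSpace.induced (fun f : C(X, ℝ) => (f : X → ℝ)) inferInstance

/-- The uniformity of pointwise convergence on the set `C(X, ℝ)` of continuous functions, i.e. the
uniformity induced from the product `ℝ^X`. -/
@[reducible] def pointwiseUniformity (X : Type) [TopologicalSpace X] : UniformSpace C(X, ℝ) :=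
  UniformSpace.comap (fun f : C(X, ℝ) => (f : X → ℝ)) inferInstance

/-- Let `X`, `Y` be Tychonoff spaces and let `Φ : C_p(Y) → C_p(X)` be a uniformly continuous map
which has a continuous right inverse `Ψ : C_p(X) → C_p(Y)` (for example a homeomorphism which is
uniformly continuous). If `Y` is a `K_{σδ}`-space, so is `X`. -/
theorem result :
    ∀ (X Y : Type) [TopologicalSpace X] [TopologicalSpace Y] [T35Space X] [T35Space Y]
      (Φ : C(Y, ℝ) → C(X, ℝ)) (Ψ : C(X, ℝ) → C(Y, ℝ)),
      @UniformContinuous C(Y, ℝ) C(X, ℝ) (pointwiseUniformity Y) (pointwiseUniformity X) Φ →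
      @Continuous C(X, ℝ) C(Y, ℝ) (pointwiseTopology X) (pointwiseTopology Y) Ψ →
      (∀ f : C(X, ℝ), Φ (Ψ f) = f) →
      IsKSigmaDelta Y → IsKSigmaDelta X := by
  intro X Y _ _ _ _ Φ Ψ hΦ hΨ hΦΨ hY
  have hu := Pool.Agent.W748.UK.unif_eps Φ hΦ
  refine Pool.Agent.W748.UK.main hY Φ Ψ hΦΨ ?_ ?_ ?_
  · intro x f ε hε
    obtain ⟨F, δ, hδ, hF⟩ := hu x ε hε
    exact ⟨F, δ, hδ, fun g hg => hF g f hg⟩
  · intro x
    exact Pool.Agent.W748.UK.coarse Φ x (hu x 1 one_pos)
  · exact Pool.Agent.W748.UK.cont_eps Ψ hΨ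

end Pool.Agent.Results.MP_bdd006_gt.UniformCase
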